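import Mathlib
import Pool.Agent.Helper157.OddCover

/-!
Lower bound: `(n + 1) ^ 2 ≤ 4 * gTilde n` when `n` is `3` modulo `4`.
-/

set_option autoImplicit false

namespace Pool.Agent.Y125.OC

open Finset Pool.Agent.Helper157.OddCover

lemma pairing {m : ℕ} {ι : Type} [Fintype ι] (P Q : Fin m → ι → ZMod 2) (κ : ι → ZMod 2)
    (h : ∀ e g, ∑ i, P i e * Q i g = κ e * κ g) (φ ψ : ι → ZMod 2) :
    ∑ i, (∑ e, φ e * P i e) * (∑ g, ψ g * Q i g) = (∑ e, φ e * κ e) * (∑ g, ψ g * κ g) := by
  calc ∑ i, (∑ e, φ e * P i e) * (∑ g, ψ g * Q i g)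
      = ∑ i, ∑ e, ∑ g, (φ e * P i e) * (ψ g * Q i g) := by simp_rw [Finset.sum_mul_sum]
    _ = ∑ e, ∑ g, ∑ i, (φ e * P i e) * (ψ g * Q i g) := by
        rw [Finset.sum_comm]
        refine Finset.sum_congr rfl fun e _ => ?_
        rw [Finset.sum_comm]
    _ = ∑ e, ∑ g, (φ e * κ e) * (ψ g * κ g) := by
        refine Finset.sum_congr rfl fun e _ => Finset.sum_congr rfl fun g _ => ?_
        have h1 : ∀ i, (φ e * P i e) * (ψ g * Q i g) = (φ e * ψ g) * (P i e * Q i g) := by
          intro i; ring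
        simp_rw [h1]
        rw [← Finset.mul_sum, h e g]
        ring
    _ = _ := by rw [Finset.sum_mul_sum]

/-- the functional counting edges inside `f` -/
def fN {n : ℕ} (f : Fin n → ZMod 2) (e : Fin n × Fin n) : ZMod 2 :=
  if e.1 < e.2 then f e.1 * f e.2 else 0

lemma evalN {n : ℕ} (f a b : Fin n → ZMod 2) (h : ∀ x, a x * b x = 0) :
    ∑ e : Fin n × Fin n, fN f e * (a e.1 * b e.2 + b e.1 * a e.2) =
      (∑ x, f x * a x) * (∑ y, f y * b y) := by
  rw [Finset.sum_mul_sum, ← Fintype.sum_prod_type']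
  have h1 : ∀ e : Fin n × Fin n, fN f e * (a e.1 * b e.2 + b e.1 * a e.2) =
      (if e.1 < e.2 then (f e.1 * a e.1) * (f e.2 * b e.2) else 0) +
      (if e.1 < e.2 then (f e.2 * a e.2) * (f e.1 * b e.1) else 0) := by
    intro e
    unfold fN
    split_ifs
    · ring
    · ring
  have h2 : ∀ e : Fin n × Fin n, (f e.1 * a e.1) * (f e.2 * b e.2) =
      (if e.1 < e.2 then (f e.1 * a e.1) * (f e.2 * b e.2) else 0) +
      (if e.2 < e.1 then (f e.1 * a e.1) * (f e.2 * b e.2) else 0) := by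
    rintro ⟨x, y⟩
    rcases lt_trichotomy x y with hxy | hxy | hxy
    · simp [hxy, not_lt.2 hxy.le]
    · subst hxy
      simp only [lt_irrefl, if_false, add_zero]
      have : (f x * a x) * (f x * b x) = (f x * f x) * (a x * b x) := by ring
      rw [this, h, mul_zero]
    · simp [hxy, not_lt.2 hxy.le]
  rw [Finset.sum_congr rfl (fun e _ => h1 e), Finset.sum_congr rfl (fun e _ => h2 e),
    Finset.sum_add_distrib, Finset.sum_add_distrib]
  congr 1
  exact Fintype.sum_equiv (Equiv.prodComm (Fin n) (Fin n)) _ _ (fun e => rfl)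

/-- the functional of a vertex and a vector -/
def fL {n : ℕ} (z0 : Fin n) (q : Fin n → ZMod 2) (g : Fin n × Fin n) : ZMod 2 :=
  if z0 = g.1 then q g.2 else 0

lemma sum_fL {n : ℕ} (z0 : Fin n) (q : Fin n → ZMod 2) (F : Fin n × Fin n → ZMod 2) :
    ∑ g, fL z0 q g * F g = ∑ w, q w * F (z0, w) := by
  rw [Fintype.sum_prod_type, Finset.sum_comm]
  refine Finset.sum_congr rfl fun w _ => ?_
  simp only [fL, ite_mul, zero_mul]
  rw [Finset.sum_ite_eq]
  simp

lemma evalL {n : ℕ} (z0 : Fin n) (q c d : Fin n → ZMod 2) :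
    ∑ g : Fin n × Fin n, fL z0 q g * (c g.1 * d g.2 + d g.1 * c g.2) =
      c z0 * (∑ w, q w * d w) + d z0 * (∑ w, q w * c w) := by
  rw [sum_fL z0 q (fun g => c g.1 * d g.2 + d g.1 * c g.2), Finset.mul_sum, Finset.mul_sum,
    ← Finset.sum_add_distrib]
  refine Finset.sum_congr rfl fun w _ => ?_
  ring

lemma KM_eq {n : ℕ} (x y : Fin n) : KM (Fin n) x y = 1 + (if x = y then 1 else 0) := by
  unfold KM
  split_ifs
  · decide
  · decide

lemma evalLK {n : ℕ} (z0 : Fin n) (q : Fin n → ZMod 2) :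
    ∑ g : Fin n × Fin n, fL z0 q g * KM (Fin n) g.1 g.2 = (∑ w, q w) + q z0 := by
  rw [sum_fL z0 q (fun g => KM (Fin n) g.1 g.2)]
  simp only [KM_eq, mul_add, mul_one, mul_ite, mul_zero]
  rw [Finset.sum_add_distrib, Finset.sum_ite_eq]
  simp

lemma evalNK {n : ℕ} (hn : n % 4 = 3) :
    ∑ e : Fin n × Fin n, fN (fun _ => 1) e * KM (Fin n) e.1 e.2 = 1 := by
  have h1 : ∀ e : Fin n × Fin n, fN (fun _ => 1) e * KM (Fin n) e.1 e.2 =
      if e.1 < e.2 then 1 else 0 := by
    rintro ⟨x, y⟩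
    simp only [fN, KM]
    by_cases h : x < y
    · simp [h, h.ne]
    · simp [h]
  rw [Finset.sum_congr rfl (fun e _ => h1 e), Fintype.sum_prod_type, Finset.sum_comm]
  have h2 : ∀ y : Fin n, (∑ x : Fin n, if x < y then (1 : ZMod 2) else 0) = ((y : ℕ) : ZMod 2) := by
    intro y
    rw [Finset.sum_boole]
    congr 1
    have : (Finset.univ.filter fun x : Fin n => x < y) = Finset.Iio y := by
      ext x; simp
    rw [this, Fin.card_Iio]
  rw [Finset.sum_congr rfl (fun y _ => h2 y), ← Nat.cast_sum,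
    Fin.sum_univ_eq_sum_range (fun i => i) n]
  have h3 := Finset.sum_range_id_mul_two n
  obtain ⟨j, rfl⟩ : ∃ j, n = 4 * j + 3 := ⟨n / 4, by omega⟩
  have h4 : ∑ i ∈ Finset.range (4 * j + 3), i = 2 * (4 * j ^ 2 + 5 * j + 1) + 1 := by
    have h5 : (4 * j + 3) * (4 * j + 3 - 1) = (2 * (4 * j ^ 2 + 5 * j + 1) + 1) * 2 := by
      have : 4 * j + 3 - 1 = 4 * j + 2 := by omega
      rw [this]; ring
    rw [h5] at h3
    omega
  rw [h4]
  push_cast
  have : (2 : ZMod 2) = 0 := by decide
  rw [this]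
  ring

lemma alg0 : ∀ wa wb pa pb wd qd : ZMod 2, pa * wd + wa * qd = 0 → pb * wd + wb * qd = 0 →
    wa * wb * qd + pa * pb * wd = 0 := by decide

lemma stepA {n m : ℕ} (hn : n % 4 = 3) (a b c d : Fin m → Fin n → ZMod 2)
    (hab : ∀ i x, a i x * b i x = 0)
    (hcov : ∀ x y z w, ∑ i, (a i x * b i y + b i x * a i y) * (c i z * d i w + d i z * c i w) =
      KM (Fin n) x y * KM (Fin n) z w)
    (p q : Fin n → ZMod 2)
    (hac : ∀ i, (∑ x, p x * a i x) * (∑ z, c i z) + (∑ x, a i x) * (∑ z, q z * c i z) = 0)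
    (had : ∀ i, (∑ x, p x * a i x) * (∑ z, d i z) + (∑ x, a i x) * (∑ z, q z * d i z) = 0)
    (hbc : ∀ i, (∑ x, p x * b i x) * (∑ z, c i z) + (∑ x, b i x) * (∑ z, q z * c i z) = 0)
    (hbd : ∀ i, (∑ x, p x * b i x) * (∑ z, d i z) + (∑ x, b i x) * (∑ z, q z * d i z) = 0)
    (z0 : Fin n) : q z0 = ∑ z, q z := by
  have hp := pairing (fun i (e : Fin n × Fin n) => a i e.1 * b i e.2 + b i e.1 * a i e.2)
    (fun i (e : Fin n × Fin n) => c i e.1 * d i e.2 + d i e.1 * c i e.2)
    (fun e => KM (Fin n) e.1 e.2) (fun e g => hcov e.1 e.2 g.1 g.2)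
  have h1 := hp (fN fun _ => 1) (fL z0 q)
  have h2 := hp (fN p) (fL z0 fun _ => 1)
  rw [evalNK hn, evalLK, one_mul] at h1
  rw [evalLK] at h2
  have h3 : (∑ _w : Fin n, (1 : ZMod 2)) + 1 = 0 := by
    simp only [Finset.sum_const, Finset.card_univ, Fintype.card_fin, nsmul_eq_mul, mul_one]
    have : ((n + 1 : ℕ) : ZMod 2) = 0 := by
      rw [ZMod.natCast_eq_zero_iff_even]
      exact ⟨(n + 1) / 2, by omega⟩
    exact_mod_cast this
  rw [h3, mul_zero] at h2
  have h4 : (∑ w, q w) + q z0 = 0 := by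
    have hs : (∑ i, (∑ e : Fin n × Fin n,
          fN (fun _ => 1) e * (a i e.1 * b i e.2 + b i e.1 * a i e.2)) *
        ∑ g : Fin n × Fin n, fL z0 q g * (c i g.1 * d i g.2 + d i g.1 * c i g.2)) +
        (∑ i, (∑ e : Fin n × Fin n, fN p e * (a i e.1 * b i e.2 + b i e.1 * a i e.2)) *
        ∑ g : Fin n × Fin n, fL z0 (fun _ => 1) g * (c i g.1 * d i g.2 + d i g.1 * c i g.2)) = 0 := by
      rw [← Finset.sum_add_distrib]
      apply Finset.sum_eq_zero
      intro i _
      have e1 := evalN (fun _ => 1) (a i) (b i) (hab i)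
      have e2 := evalN p (a i) (b i) (hab i)
      have e3 := evalL z0 q (c i) (d i)
      have e4 := evalL z0 (fun _ => 1) (c i) (d i)
      simp only [one_mul] at e1 e4
      rw [e1, e2, e3, e4]
      have g1 := alg0 _ _ _ _ _ _ (had i) (hbd i)
      have g2 := alg0 _ _ _ _ _ _ (hac i) (hbc i)
      linear_combination (c i z0) * g1 + (d i z0) * g2
    rw [h1, h2, add_zero] at hs
    exact hs
  have h5 : q z0 + q z0 = 0 := two_zmod2 _
  linear_combination h5 - h4

/-- full rank -/
lemma stepC {n m : ℕ} (hn : n % 4 = 3) (a b c d : Fin m → Fin n → ZMod 2)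
    (hab : ∀ i x, a i x * b i x = 0) (hcd : ∀ i x, c i x * d i x = 0)
    (hcov : ∀ x y z w, ∑ i, (a i x * b i y + b i x * a i y) * (c i z * d i w + d i z * c i w) =
      KM (Fin n) x y * KM (Fin n) z w)
    (Z : Fin n → Fin n → ZMod 2)
    (hac : ∀ i, ∑ x, ∑ z, Z x z * (a i x * c i z) = 0)
    (had : ∀ i, ∑ x, ∑ z, Z x z * (a i x * d i z) = 0)
    (hbc : ∀ i, ∑ x, ∑ z, Z x z * (b i x * c i z) = 0)
    (hbd : ∀ i, ∑ x, ∑ z, Z x z * (b i x * d i z) = 0) : Z = 0 := by
  -- the kernel of the cover matrix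
  have h1 : ∀ x z, ∑ y, ∑ w, (KM (Fin n) x y * KM (Fin n) z w) * Z y w = 0 := by
    intro x z
    have e1 : ∀ y w, (KM (Fin n) x y * KM (Fin n) z w) * Z y w =
        ∑ i, (a i x * c i z * (Z y w * (b i y * d i w)) + a i x * d i z * (Z y w * (b i y * c i w))
          + b i x * c i z * (Z y w * (a i y * d i w))
          + b i x * d i z * (Z y w * (a i y * c i w))) := by
      intro y w
      rw [← hcov, Finset.sum_mul]
      refine Finset.sum_congr rfl fun i _ => ?_
      ring
    simp_rw [e1]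
    have e2 : ∀ F : Fin n → Fin n → Fin m → ZMod 2,
        ∑ y, ∑ w, ∑ i, F y w i = ∑ i, ∑ y, ∑ w, F y w i := by
      intro F
      have : ∀ y, ∑ w, ∑ i, F y w i = ∑ i, ∑ w, F y w i := fun y => Finset.sum_comm
      rw [Finset.sum_congr rfl (fun y _ => this y), Finset.sum_comm]
    rw [e2]
    apply Finset.sum_eq_zero
    intro i _
    simp_rw [Finset.sum_add_distrib, ← Finset.mul_sum]
    rw [hac i, had i, hbc i, hbd i]
    ring
  set tot : ZMod 2 := ∑ y, ∑ w, Z y w with htot
  set p : Fin n → ZMod 2 := fun x => tot + ∑ w, Z x w with hp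
  set q : Fin n → ZMod 2 := fun z => ∑ y, Z y z with hq
  have hZ : ∀ x z, Z x z = p x + q z := by
    intro x z
    have h2 := h1 x z
    have h3 : ∑ y, ∑ w, (KM (Fin n) x y * KM (Fin n) z w) * Z y w =
        tot + (∑ w, Z x w) + (∑ y, Z y z) + Z x z := by
      have e3 : ∀ y w, (KM (Fin n) x y * KM (Fin n) z w) * Z y w =
          Z y w + (if x = y then Z y w else 0) + (if z = w then Z y w else 0) +
          (if x = y then (if z = w then Z y w else 0) else 0) := by
        intro y w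
        rw [KM_eq, KM_eq]
        split_ifs <;> ring
      simp_rw [e3, Finset.sum_add_distrib]
      congr 1
      · congr 1
        · congr 1
          rw [Finset.sum_comm]
          refine Finset.sum_congr rfl fun w _ => ?_
          rw [Finset.sum_ite_eq]
          simp
        · refine Finset.sum_congr rfl fun y _ => ?_
          rw [Finset.sum_ite_eq]
          simp
      · have : ∀ y, ∑ w, (if x = y then (if z = w then Z y w else 0) else 0) =
            if x = y then Z y z else 0 := by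
          intro y
          split_ifs
          · rw [Finset.sum_ite_eq]; simp
          · simp
        rw [Finset.sum_congr rfl (fun y _ => this y), Finset.sum_ite_eq]
        simp
    rw [h3] at h2
    have h5 : Z x z + Z x z = 0 := two_zmod2 _
    simp only [hp, hq]
    linear_combination h5 - h2
  have hform : ∀ u v : Fin n → ZMod 2, ∑ x, ∑ z, Z x z * (u x * v z) =
      (∑ x, p x * u x) * (∑ z, v z) + (∑ x, u x) * (∑ z, q z * v z) := by
    intro u v
    rw [Finset.sum_mul_sum, Finset.sum_mul_sum, ← Finset.sum_add_distrib]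
    refine Finset.sum_congr rfl fun x _ => ?_
    rw [← Finset.sum_add_distrib]
    refine Finset.sum_congr rfl fun z _ => ?_
    rw [hZ]; ring
  have hac' : ∀ i, _ := fun i => (hform (a i) (c i)).symm.trans (hac i)
  have had' : ∀ i, _ := fun i => (hform (a i) (d i)).symm.trans (had i)
  have hbc' : ∀ i, _ := fun i => (hform (b i) (c i)).symm.trans (hbc i)
  have hbd' : ∀ i, _ := fun i => (hform (b i) (d i)).symm.trans (hbd i)
  have hq' := stepA hn a b c d hab hcov p q hac' had' hbc' hbd'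
  have hcov2 : ∀ x y z w, ∑ i, (c i x * d i y + d i x * c i y) * (a i z * b i w + b i z * a i w) =
      KM (Fin n) x y * KM (Fin n) z w := by
    intro x y z w
    rw [mul_comm (KM (Fin n) x y), ← hcov z w x y]
    refine Finset.sum_congr rfl fun i _ => ?_
    ring
  have hp' := stepA hn c d a b hcd hcov2 q p
    (fun i => by linear_combination hac' i) (fun i => by linear_combination hbc' i)
    (fun i => by linear_combination had' i) (fun i => by linear_combination hbd' i)
  -- constants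
  set P0 : ZMod 2 := ∑ z, p z with hP0
  set Q0 : ZMod 2 := ∑ z, q z with hQ0
  have hconst : ∀ x z, Z x z = P0 + Q0 := by
    intro x z; rw [hZ, hp' x, hq' z]
  rcases zmod2_cases (P0 + Q0) with h0 | h0
  · funext x z
    rw [hconst, h0]; rfl
  · exfalso
    have hpr := pairing (fun i (e : Fin n × Fin n) => a i e.1 * b i e.2 + b i e.1 * a i e.2)
      (fun i (e : Fin n × Fin n) => c i e.1 * d i e.2 + d i e.1 * c i e.2)
      (fun e => KM (Fin n) e.1 e.2) (fun e g => hcov e.1 e.2 g.1 g.2)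
      (fN fun _ => 1) (fN fun _ => 1)
    rw [evalNK hn] at hpr
    have hz : ∑ i, (∑ e : Fin n × Fin n, fN (fun _ => 1) e * (a i e.1 * b i e.2 + b i e.1 * a i e.2))
        * (∑ g : Fin n × Fin n, fN (fun _ => 1) g * (c i g.1 * d i g.2 + d i g.1 * c i g.2)) = 0 := by
      apply Finset.sum_eq_zero
      intro i _
      have e1 := evalN (fun _ => 1) (a i) (b i) (hab i)
      have e2 := evalN (fun _ => 1) (c i) (d i) (hcd i)
      simp only [one_mul] at e1 e2
      rw [e1, e2]
      have g1 : (∑ x, a i x) * (∑ z, c i z) = 0 := by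
        have := hac i
        simp_rw [hconst, h0, one_mul] at this
        rw [Finset.sum_mul_sum]; exact this
      linear_combination ((∑ x, b i x) * (∑ z, d i z)) * g1
    rw [hz] at hpr
    exact absurd hpr (by decide)

end Pool.Agent.Y125.OC
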