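import Mathlib
import Pool.Agent.Y125.OC.Low

/-!
Lower bound: `(n + 1) ^ 2 ≤ 4 * gTilde n` when `n` is `3` modulo `4`: the dimension count.
-/

set_option autoImplicit false

namespace Pool.Agent.Y125.OC

open Finset Pool.Agent.Helper157.OddCover

/-- the matrix of the cover -/
def UU {n m : ℕ} (a b c d : Fin m → Fin n → ZMod 2) :
    Matrix (Fin m × Fin 4) (Fin n × Fin n) (ZMod 2) := fun q p =>
  match q.2 with
  | 0 => a q.1 p.1 * c q.1 p.2
  | 1 => a q.1 p.1 * d q.1 p.2
  | 2 => b q.1 p.1 * c q.1 p.2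
  | 3 => b q.1 p.1 * d q.1 p.2

/-- the same matrix with the rows of each block in reverse order -/
def TT {n m : ℕ} (a b c d : Fin m → Fin n → ZMod 2) :
    Matrix (Fin m × Fin 4) (Fin n × Fin n) (ZMod 2) := fun q p =>
  match q.2 with
  | 0 => b q.1 p.1 * d q.1 p.2
  | 1 => b q.1 p.1 * c q.1 p.2
  | 2 => a q.1 p.1 * d q.1 p.2
  | 3 => a q.1 p.1 * c q.1 p.2

/-- the map `(p, q) ↦ p ⊕ q` with `p` vanishing at `0` -/
def Psi (k : ℕ) : (Fin k ⊕ Fin (k + 1) → ZMod 2) →ₗ[ZMod 2]
    (Fin (k + 1) × Fin (k + 1) → ZMod 2) where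
  toFun f := fun e => (Fin.cases 0 (fun j => f (Sum.inl j)) e.1 : ZMod 2) + f (Sum.inr e.2)
  map_add' f g := by
    funext e
    rcases e with ⟨x, z⟩
    refine Fin.cases ?_ (fun j => ?_) x
    · simp
    · simp only [Pi.add_apply, Fin.cases_succ]
      ring
  map_smul' t f := by
    funext e
    rcases e with ⟨x, z⟩
    refine Fin.cases ?_ (fun j => ?_) x
    · simp
    · simp only [Pi.smul_apply, Fin.cases_succ, RingHom.id_apply, smul_eq_mul]
      ring

lemma Psi_apply (k : ℕ) (f : Fin k ⊕ Fin (k + 1) → ZMod 2) (e : Fin (k + 1) × Fin (k + 1)) :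
    Psi k f e = (Fin.cases 0 (fun j => f (Sum.inl j)) e.1 : ZMod 2) + f (Sum.inr e.2) := rfl

lemma Psi_inj (k : ℕ) (f : Fin k ⊕ Fin (k + 1) → ZMod 2) (h : Psi k f = 0) : f = 0 := by
  have h1 : ∀ z, f (Sum.inr z) = 0 := by
    intro z
    have := congrFun h (0, z)
    simpa [Psi_apply] using this
  funext e
  rcases e with j | z
  · have := congrFun h (j.succ, 0)
    rw [Psi_apply, h1] at this
    simpa using this
  · exact h1 z

lemma sum_KM {n : ℕ} (hn : n % 4 = 3) (z : Fin n) : ∑ w, KM (Fin n) z w = 0 := by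
  simp only [KM_eq]
  rw [Finset.sum_add_distrib, Finset.sum_ite_eq]
  simp only [Finset.sum_const, Finset.card_univ, Fintype.card_fin, nsmul_eq_mul, mul_one,
    Finset.mem_univ, if_true]
  have : ((n + 1 : ℕ) : ZMod 2) = 0 := by
    rw [ZMod.natCast_eq_zero_iff_even]
    exact ⟨(n + 1) / 2, by omega⟩
  exact_mod_cast this

theorem key {n m : ℕ} (hn : n % 4 = 3) (a b c d : Fin m → Fin n → ZMod 2)
    (hab : ∀ i x, a i x * b i x = 0) (hcd : ∀ i x, c i x * d i x = 0)
    (hcov : ∀ x y z w, ∑ i, (a i x * b i y + b i x * a i y) * (c i z * d i w + d i z * c i w) =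
      KM (Fin n) x y * KM (Fin n) z w) : (n + 1) ^ 2 ≤ 4 * m := by
  obtain ⟨k, rfl⟩ : ∃ k, n = k + 1 := ⟨n - 1, by omega⟩
  -- injectivity
  have hsum : ∀ (Z : Fin (k + 1) × Fin (k + 1) → ZMod 2) (u v : Fin (k + 1) → ZMod 2),
      ∑ p : Fin (k + 1) × Fin (k + 1), u p.1 * v p.2 * Z p =
        ∑ x, ∑ z, Z (x, z) * (u x * v z) := by
    intro Z u v
    rw [Fintype.sum_prod_type]
    refine Finset.sum_congr rfl fun x _ => Finset.sum_congr rfl fun z _ => ?_
    ring
  have hU : ∀ Z : Fin (k + 1) × Fin (k + 1) → ZMod 2, (UU a b c d).mulVec Z = 0 → Z = 0 := by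
    intro Z hZ
    have h0 := stepC hn a b c d hab hcd hcov (fun x z => Z (x, z))
      (fun i => by rw [← hsum]; exact congrFun hZ (i, 0))
      (fun i => by rw [← hsum]; exact congrFun hZ (i, 1))
      (fun i => by rw [← hsum]; exact congrFun hZ (i, 2))
      (fun i => by rw [← hsum]; exact congrFun hZ (i, 3))
    funext p
    exact congrFun (congrFun h0 p.1) p.2
  have hT : ∀ Z : Fin (k + 1) × Fin (k + 1) → ZMod 2, (TT a b c d).mulVec Z = 0 → Z = 0 := by
    intro Z hZ
    have h0 := stepC hn a b c d hab hcd hcov (fun x z => Z (x, z))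
      (fun i => by rw [← hsum]; exact congrFun hZ (i, 3))
      (fun i => by rw [← hsum]; exact congrFun hZ (i, 2))
      (fun i => by rw [← hsum]; exact congrFun hZ (i, 1))
      (fun i => by rw [← hsum]; exact congrFun hZ (i, 0))
    funext p
    exact congrFun (congrFun h0 p.1) p.2
  -- rank of the transpose
  have hrank : Module.finrank (ZMod 2)
      (LinearMap.range ((UU a b c d).transpose).mulVecLin) = (k + 1) * (k + 1) := by
    have e1 : ((UU a b c d).transpose).rank = (UU a b c d).rank := Matrix.rank_transpose _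
    have e2 : (UU a b c d).rank = (k + 1) * (k + 1) := by
      have hinj : Function.Injective (UU a b c d).mulVecLin := by
        rw [← LinearMap.ker_eq_bot, LinearMap.ker_eq_bot']
        intro Z hZ
        exact hU Z hZ
      have := LinearMap.finrank_range_of_inj hinj
      rw [Module.finrank_fintype_fun_eq_card, Fintype.card_prod, Fintype.card_fin] at this
      exact this
    rw [← e2, ← e1]
    rfl
  have hnull := LinearMap.finrank_range_add_finrank_ker ((UU a b c d).transpose).mulVecLin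
  rw [hrank, Module.finrank_fintype_fun_eq_card, Fintype.card_prod, Fintype.card_fin,
    Fintype.card_fin] at hnull
  -- product
  have hprod : ∀ f : Fin k ⊕ Fin (k + 1) → ZMod 2,
      ((UU a b c d).transpose).mulVec ((TT a b c d).mulVec (Psi k f)) = 0 := by
    intro f
    funext e
    rcases e with ⟨x, z⟩
    have h1 : ∀ (y w : Fin (k + 1)), ∑ q : Fin m × Fin 4,
        (UU a b c d) q (x, z) * (TT a b c d) q (y, w) = KM _ x y * KM _ z w := by
      intro y w
      rw [Fintype.sum_prod_type, ← hcov]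
      refine Finset.sum_congr rfl fun i _ => ?_
      simp only [Fin.sum_univ_four, UU, TT]
      ring
    show ∑ q, (UU a b c d) q (x, z) * (∑ p, (TT a b c d) q p * Psi k f p) = 0
    have h2 : ∑ q, (UU a b c d) q (x, z) * (∑ p, (TT a b c d) q p * Psi k f p) =
        ∑ p : Fin (k + 1) × Fin (k + 1),
          (∑ q, (UU a b c d) q (x, z) * (TT a b c d) q p) * Psi k f p := by
      simp_rw [Finset.mul_sum, Finset.sum_mul]
      rw [Finset.sum_comm]
      refine Finset.sum_congr rfl fun p _ => Finset.sum_congr rfl fun q _ => ?_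
      ring
    rw [h2, Fintype.sum_prod_type]
    simp_rw [h1, Psi_apply]
    set g : Fin (k + 1) → ZMod 2 := fun y => (Fin.cases 0 (fun j => f (Sum.inl j)) y : ZMod 2)
      with hg
    have h3 : ∀ y w, KM (Fin (k + 1)) x y * KM (Fin (k + 1)) z w * (g y + f (Sum.inr w)) =
        (KM (Fin (k + 1)) x y * g y) * KM (Fin (k + 1)) z w +
        KM (Fin (k + 1)) x y * (KM (Fin (k + 1)) z w * f (Sum.inr w)) := by
      intro y w; ring
    have h4 : ∑ y, ∑ w, KM (Fin (k + 1)) x y * KM (Fin (k + 1)) z w * (g y + f (Sum.inr w)) = 0 := by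
      simp_rw [h3, Finset.sum_add_distrib, ← Finset.mul_sum, ← Finset.sum_mul]
      rw [sum_KM hn z, sum_KM hn x]
      ring
    exact h4
  -- injection into the kernel
  let Φ : (Fin k ⊕ Fin (k + 1) → ZMod 2) →ₗ[ZMod 2]
      LinearMap.ker ((UU a b c d).transpose).mulVecLin :=
    LinearMap.codRestrict _ ((TT a b c d).mulVecLin ∘ₗ Psi k) (by
      intro f
      rw [LinearMap.mem_ker]
      exact hprod f)
  have hΦ : Function.Injective Φ := by
    rw [← LinearMap.ker_eq_bot, LinearMap.ker_eq_bot']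
    intro f hf
    apply Psi_inj k f
    apply hT
    have := congrArg Subtype.val hf
    exact this
  have hle := LinearMap.finrank_le_finrank_of_injective hΦ
  rw [Module.finrank_fintype_fun_eq_card, Fintype.card_sum, Fintype.card_fin,
    Fintype.card_fin] at hle
  obtain ⟨j, hj⟩ : ∃ j, k = 4 * j + 2 := ⟨k / 4, by omega⟩
  subst hj
  have e1 : (4 * j + 2 + 1) * (4 * j + 2 + 1) + (8 * j + 5) + 2 = 4 * (4 * (j + 1) ^ 2) := by ring
  have e2 : (4 * j + 2 + 1 + 1) ^ 2 = 4 * (4 * (j + 1) ^ 2) := by ring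
  rw [e2]
  generalize (4 * j + 2 + 1) * (4 * j + 2 + 1) = X at *
  generalize 4 * (j + 1) ^ 2 = Y at *
  omega

/-- the vectors of an odd cover -/
theorem key2 {n m : ℕ} (hn : n % 4 = 3) (h : HasOddCover n m) : (n + 1) ^ 2 ≤ 4 * m := by
  classical
  obtain ⟨P, hP, hodd⟩ := h
  choose A B C D hA hB hC hD hAB hCD hPe using hP
  have hdis : ∀ S T : Finset (Fin n), Disjoint S T → ∀ x, chi S x * chi T x = 0 := by
    intro S T hST x
    unfold chi
    by_cases h1 : x ∈ S
    · have h2 : x ∉ T := Finset.disjoint_left.1 hST h1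
      simp [h2]
    · simp [h1]
  refine key hn (fun i => chi (A i)) (fun i => chi (B i)) (fun i => chi (C i))
    (fun i => chi (D i)) (fun i x => hdis _ _ (hAB i) x) (fun i x => hdis _ _ (hCD i) x) ?_
  intro x y z w
  by_cases hxy : x = y
  · subst hxy
    have : ∀ i : Fin m, (chi (A i) x * chi (B i) x + chi (B i) x * chi (A i) x) *
        (chi (C i) z * chi (D i) w + chi (D i) z * chi (C i) w) = 0 := by
      intro i
      rw [mul_comm (chi (B i) x), two_zmod2, zero_mul]
    rw [Finset.sum_congr rfl (fun i _ => this i)]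
    simp [KM]
  by_cases hzw : z = w
  · subst hzw
    have : ∀ i : Fin m, (chi (A i) x * chi (B i) y + chi (B i) x * chi (A i) y) *
        (chi (C i) z * chi (D i) z + chi (D i) z * chi (C i) z) = 0 := by
      intro i
      rw [mul_comm (chi (D i) z), two_zmod2, mul_zero]
    rw [Finset.sum_congr rfl (fun i _ => this i)]
    simp [KM]
  have he : s(x, y) ∈ (⊤ : SimpleGraph (Fin n)).edgeSet := by
    rw [SimpleGraph.mem_edgeSet, SimpleGraph.top_adj]
    exact hxy
  have hg : s(z, w) ∈ (⊤ : SimpleGraph (Fin n)).edgeSet := by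
    rw [SimpleGraph.mem_edgeSet, SimpleGraph.top_adj]
    exact hzw
  have := hodd _ he _ hg
  rw [odd_card_iff] at this
  simp only [KM, hxy, hzw, if_false, mul_one]
  rw [← this]
  apply Finset.sum_congr rfl
  intro i _
  rw [← chi_biclique (hAB i), ← chi_biclique (hCD i)]
  have hmem : (s(x, y), s(z, w)) ∈ P i ↔
      s(x, y) ∈ bicliqueEdges (A i) (B i) ∧ s(z, w) ∈ bicliqueEdges (C i) (D i) := by
    rw [hPe i, Set.mem_prod]
  by_cases h1 : s(x, y) ∈ bicliqueEdges (A i) (B i) <;>
    by_cases h2 : s(z, w) ∈ bicliqueEdges (C i) (D i) <;> simp [hmem, h1, h2]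

/-- `((n + 1) / 2) ^ 2 ≤ gTilde n` for `n` equal to `3` modulo `4` -/
theorem lower3 {n : ℕ} (hn : n % 4 = 3) : (n / 2 + 1) ^ 2 ≤ gTilde n := by
  have h1 := key2 hn (hasOddCover_gTilde n)
  obtain ⟨j, rfl⟩ : ∃ j, n = 4 * j + 3 := ⟨n / 4, by omega⟩
  have h2 : (4 * j + 3) / 2 = 2 * j + 1 := by omega
  rw [h2]
  have h3 : (4 * j + 3 + 1) ^ 2 = 4 * (2 * j + 1 + 1) ^ 2 := by ring
  rw [h3] at h1
  omega

/-- `(n / 2) ^ 2 ≤ gTilde n` -/
theorem lower_all (n : ℕ) : (n / 2) ^ 2 ≤ gTilde n := by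
  rcases Nat.even_or_odd n with h | h
  · have h1 := sq_le_of_even h
    obtain ⟨k, rfl⟩ := h
    have h2 : (k + k) / 2 = k := by omega
    rw [h2]
    have h3 : (k + k) ^ 2 = 4 * k ^ 2 := by ring
    rw [h3] at h1
    omega
  · have h1 := sq_le_of_odd h
    obtain ⟨k, rfl⟩ := h
    have h2 : (2 * k + 1) / 2 = k := by omega
    rw [h2]
    have h3 : (2 * k + 1 - 1) ^ 2 = 4 * k ^ 2 := by
      have : 2 * k + 1 - 1 = 2 * k := by omega
      rw [this]; ring
    rw [h3] at h1
    omega

end Pool.Agent.Y125.OC
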