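import Mathlib
import Pool.Agent.Helper157.OddCover

/-!
An odd cover of the complete graph on `2 k + 1` vertices by `k + 1` complete bipartite graphs
(the construction of Leader and Tan), and the resulting upper bound for `gTilde`.
-/

set_option autoImplicit false

namespace Pool.Agent.Y125.OC

open Finset Pool.Agent.Helper157.OddCover

/-- indicator of the first part -/
def al {k : ℕ} : Option (Fin k) → Option (Fin k × ZMod 2) → ZMod 2
  | none, none => 0
  | none, some u => u.2
  | some _, none => 0
  | some i, some u => if u.1 = i then 1 else 0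

/-- indicator of the second part -/
def be {k : ℕ} : Option (Fin k) → Option (Fin k × ZMod 2) → ZMod 2
  | none, none => 0
  | none, some u => 1 + u.2
  | some _, none => 1
  | some i, some u => if i < u.1 then 1 + u.2 else if u.1 < i then u.2 else 0

lemma al_mul_be {k : ℕ} (i : Option (Fin k)) (u : Option (Fin k × ZMod 2)) :
    al i u * be i u = 0 := by
  rcases i with _ | i <;> rcases u with _ | ⟨j, s⟩
  · simp [al]
  · simp only [al, be]
    revert s; decide
  · simp [al]
  · simp only [al, be]
    by_cases h : j = i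
    · subst h; simp
    · simp [h]

lemma sum_al_be {k : ℕ} (u v : Option (Fin k × ZMod 2)) (huv : u ≠ v) :
    ∑ i, (al i u * be i v + be i u * al i v) = 1 := by
  rw [Fintype.sum_option]
  rcases u with _ | ⟨j, s⟩ <;> rcases v with _ | ⟨j', s'⟩
  · exact absurd rfl huv
  · simp only [al, be, zero_mul, zero_add, one_mul]
    rw [Finset.sum_ite_eq]
    simp
  · simp only [al, be, mul_zero, add_zero, mul_one]
    rw [Finset.sum_ite_eq]
    simp
  · simp only [al, be]
    rw [Finset.sum_add_distrib]
    have h1 : ∑ i : Fin k, (if j = i then (1 : ZMod 2) else 0) *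
        (if i < j' then 1 + s' else if j' < i then s' else 0) =
        (if j < j' then 1 + s' else if j' < j then s' else 0) := by
      simp only [ite_mul, one_mul, zero_mul]
      rw [Finset.sum_ite_eq]
      simp
    have h2 : ∑ i : Fin k, (if i < j then 1 + s else if j < i then s else 0) *
        (if j' = i then (1 : ZMod 2) else 0) =
        (if j' < j then 1 + s else if j < j' then s else 0) := by
      simp only [mul_ite, mul_one, mul_zero]
      rw [Finset.sum_ite_eq]
      simp
    rw [h1, h2]
    rcases lt_trichotomy j j' with h | h | h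
    · have h' : ¬ j' < j := not_lt.2 h.le
      simp only [h, h', if_true, if_false]
      clear huv h1 h2
      revert s s'; decide
    · subst h
      have h3 : s ≠ s' := fun h => huv (by rw [h])
      simp only [lt_irrefl, if_false]
      clear huv h1 h2
      revert s s'; decide
    · have h' : ¬ j < j' := not_lt.2 h.le
      simp only [h, h', if_true, if_false]
      clear huv h1 h2
      revert s s'; decide

/-- first part of the `i`-th biclique -/
def pA {n k : ℕ} (φ : Fin n → Option (Fin k × ZMod 2)) (i : Option (Fin k)) : Finset (Fin n) :=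
  univ.filter fun x => al i (φ x) = 1

/-- second part of the `i`-th biclique -/
def pB {n k : ℕ} (φ : Fin n → Option (Fin k × ZMod 2)) (i : Option (Fin k)) : Finset (Fin n) :=
  univ.filter fun x => be i (φ x) = 1

lemma pAB {n k : ℕ} (φ : Fin n → Option (Fin k × ZMod 2)) (i : Option (Fin k)) :
    Disjoint (pA φ i) (pB φ i) := by
  rw [Finset.disjoint_left]
  intro x hx hy
  simp only [pA, pB, mem_filter, mem_univ, true_and] at hx hy
  have := al_mul_be i (φ x)
  rw [hx, hy] at this
  exact absurd this (by decide)

lemma chi_pA {n k : ℕ} (φ : Fin n → Option (Fin k × ZMod 2)) (i : Option (Fin k)) (x : Fin n) :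
    chi (pA φ i) x = al i (φ x) := by
  unfold chi pA
  rcases zmod2_cases (al i (φ x)) with h | h <;> simp [h]

lemma chi_pB {n k : ℕ} (φ : Fin n → Option (Fin k × ZMod 2)) (i : Option (Fin k)) (x : Fin n) :
    chi (pB φ i) x = be i (φ x) := by
  unfold chi pB
  rcases zmod2_cases (be i (φ x)) with h | h <;> simp [h]

lemma odd_one {n k : ℕ} (φ : Fin n → Option (Fin k × ZMod 2)) (hφ : Function.Injective φ)
    (e : Sym2 (Fin n)) (he : e ∈ (⊤ : SimpleGraph (Fin n)).edgeSet) :
    Odd (Nat.card {i : Option (Fin k) // e ∈ bicliqueEdges (pA φ i) (pB φ i)}) := by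
  classical
  induction e using Sym2.ind with
  | _ x y =>
    rw [SimpleGraph.mem_edgeSet, SimpleGraph.top_adj] at he
    rw [odd_card_iff]
    refine Eq.trans (Finset.sum_congr rfl ?_) (sum_al_be (φ x) (φ y) (fun h => he (hφ h)))
    intro i _
    have h1 := chi_biclique (pAB φ i) x y
    rw [chi_pA, chi_pA, chi_pB, chi_pB] at h1
    rw [← h1]

lemma exists_cover_odd {n k : ℕ} (hn : n ≤ 2 * k + 1) : ∃ m ≤ (k + 1) ^ 2, HasOddCover n m := by
  classical
  have hcard : Fintype.card (Fin n) ≤ Fintype.card (Option (Fin k × ZMod 2)) := by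
    simp only [Fintype.card_option, Fintype.card_prod, Fintype.card_fin, ZMod.card]
    omega
  obtain ⟨φ⟩ := Function.Embedding.nonempty_of_card_le hcard
  obtain ⟨m, hm, hc⟩ := exists_cover_of_weak (n := n)
    (ι := Option (Fin k) × Option (Fin k))
    (fun p => pA φ p.1) (fun p => pB φ p.1) (fun p => pA φ p.2) (fun p => pB φ p.2)
    (fun p => pAB φ p.1) (fun p => pAB φ p.2) (by
      intro e he f hf
      have h1 := odd_one φ φ.injective e he
      have h2 := odd_one φ φ.injective f hf
      have h3 := h1.mul h2
      rw [← Nat.card_prod] at h3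
      convert h3 using 1
      apply Nat.card_congr
      refine ⟨fun p => (⟨p.1.1, p.2.1⟩, ⟨p.1.2, p.2.2⟩), fun q => ⟨(q.1.1, q.2.1), q.1.2, q.2.2⟩,
        ?_, ?_⟩
      · rintro ⟨⟨a, b⟩, h⟩; rfl
      · rintro ⟨⟨a, ha⟩, ⟨b, hb⟩⟩; rfl)
  refine ⟨m, hm.trans (le_of_eq ?_), hc⟩
  simp only [Fintype.card_prod, Fintype.card_fin, Fintype.card_option]
  ring

/-- `gTilde n ≤ (⌊n / 2⌋ + 1) ^ 2` -/
theorem upper (n : ℕ) : gTilde n ≤ (n / 2 + 1) ^ 2 := by
  obtain ⟨m, hm, hc⟩ := exists_cover_odd (n := n) (k := n / 2) (by omega)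
  exact (Nat.sInf_le hc).trans hm

end Pool.Agent.Y125.OC
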